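import Mathlib
import Pool.Agent.H35_SD.Comb
import Pool.Agent.Y827.RO.NarF

set_option autoImplicit false

/-!
Prime solutions of `a p - b q = c + a b (u - v)` against differences of primes, at every scale.
-/

namespace Pool.Agent.Helper593_PS

open Finset Filter
open Pool.Agent.Y827.GS (Adf cntN cntN_anti)
open Pool.Agent.H35_SD (ec comb)

/-- the number of the prime solutions of `a p - b q = c` with `p ≤ X` -/
noncomputable def sols (a b : ℕ) (c : ℤ) (X : ℕ) : ℕ :=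
  {x : ℕ × ℕ | x.1.Prime ∧ x.2.Prime ∧ (a : ℤ) * x.1 - b * x.2 = c ∧ x.1 ≤ X}.ncard

/-- the number of the primes `p ≤ X` with `k p ≡ c (mod m)` for which `p + h` is prime -/
noncomputable def diffs (k m : ℕ) (c h : ℤ) (X : ℕ) : ℕ :=
  {p : ℕ | p.Prime ∧ p ≤ X ∧ (m : ℤ) ∣ k * p - c ∧ ∃ q : ℕ, q.Prime ∧ (q : ℤ) = p + h}.ncard

/-- the two families of linear forms -/
def F (a b : ℕ) (p₀ q₀ : ℤ) (p : Bool × ℕ) : ℤ × ℤ :=
  if p.1 = true then ((b : ℤ), p₀ + b * p.2) else ((a : ℤ), q₀ + a * p.2)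

theorem F_inj {a b : ℕ} {p₀ q₀ : ℤ} (ha : 1 ≤ a) (hb : 1 ≤ b) {s : Bool} {u v : ℕ}
    (h : F a b p₀ q₀ (s, u) = F a b p₀ q₀ (s, v)) : u = v := by
  unfold F at h
  cases s
  · simp only [Bool.false_eq_true, if_false, Prod.mk.injEq, true_and, add_right_inj] at h
    have h2 : (a : ℤ) ≠ 0 := by omega
    exact_mod_cast mul_left_cancel₀ h2 h
  · simp only [if_true, Prod.mk.injEq, true_and, add_right_inj] at h
    have h2 : (b : ℤ) ≠ 0 := by omega
    exact_mod_cast mul_left_cancel₀ h2 h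

/-- a form `s n + r + s u` with `|r| ≤ N / 50` -/
theorem adf_aux {s N u A : ℕ} {r : ℤ} (hs : 1 ≤ s) (hsA : s ≤ A) (hr : 50 * |r| ≤ N) (hc : IsCoprime (s : ℤ) r)
    (hu : 10 * (s * u) ≤ N) (hN : 1 ≤ N) : Adf A N ((s : ℤ), r + s * u) := by
  have hNr : (1 : ℝ) ≤ N := by exact_mod_cast hN
  have hsr : (1 : ℝ) ≤ s := by exact_mod_cast hs
  have hur : (0 : ℝ) ≤ u := Nat.cast_nonneg u
  have hrr : 50 * |(r : ℝ)| ≤ N := by exact_mod_cast hr
  have hr2 := neg_abs_le (r : ℝ)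
  refine ⟨by simp only [ne_eq, Nat.cast_eq_zero]; omega, ?_, ?_, ?_, ?_⟩
  · rw [Nat.abs_cast]; exact_mod_cast hsA
  · have h1 : |r + (s : ℤ) * u| ≤ |r| + (s : ℤ) * u := by
      refine (abs_add_le _ _).trans (le_of_eq ?_)
      rw [abs_of_nonneg (by positivity : (0 : ℤ) ≤ (s : ℤ) * u)]
    have h2 : 10 * ((s : ℤ) * u) ≤ N := by exact_mod_cast hu
    simp only
    have h3 := abs_nonneg r
    linarith
  · simp only
    have e : r + (s : ℤ) * u = r + s * u := rfl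
    exact hc.add_mul_left_right (u : ℤ)
  · intro t ht1 ht2
    push_cast
    have h1 : (0 : ℝ) ≤ (s : ℝ) * u := by positivity
    have h2 : (N : ℝ) / 16 ≤ s * t := by nlinarith
    linarith

theorem F_adf {a b N : ℕ} {p₀ q₀ : ℤ} (ha : 1 ≤ a) (hb : 1 ≤ b) (hp : 50 * |p₀| ≤ N) (hq : 50 * |q₀| ≤ N)
    (hcp : IsCoprime (b : ℤ) p₀) (hcq : IsCoprime (a : ℤ) q₀) (hN : 1 ≤ N) {s : Bool} {v : ℕ}
    (hv : 10 * (a * b * v) ≤ N) : Adf (max a b) N (F a b p₀ q₀ (s, v)) := by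
  unfold F
  cases s
  · simp only [Bool.false_eq_true, if_false]
    refine adf_aux ha (le_max_left _ _) hq hcq ?_ hN
    have : a * v ≤ a * b * v := Nat.mul_le_mul_right v (Nat.le_mul_of_pos_right a (by omega))
    omega
  · simp only [if_true]
    refine adf_aux hb (le_max_right _ _) hp hcp ?_ hN
    have : b * v ≤ a * b * v := Nat.mul_le_mul_right v (Nat.le_mul_of_pos_left b (by omega))
    omega

/-- at most one of the residues `0, 1, 2` is a zero of `x n + y` modulo a prime `p ≥ 3` not dividing `x` -/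
theorem two_of_three {p : ℕ} (hp : p.Prime) (h3 : 3 ≤ p) {x y : ℤ} (hx : ¬ (p : ℤ) ∣ x) {i j : ℤ}
    (hi : (p : ℤ) ∣ x * i + y) (hj : (p : ℤ) ∣ x * j + y) (hij : i ≠ j) (hij2 : |i - j| ≤ 2) : False := by
  have h1 := dvd_sub hi hj
  have e : x * i + y - (x * j + y) = x * (i - j) := by ring
  rw [e] at h1
  rcases (Nat.prime_iff_prime_int.1 hp).dvd_or_dvd h1 with h | h
  · exact hx h
  · have h2 : (i - j) ≠ 0 := sub_ne_zero.2 hij
    have h4 := Int.le_of_dvd (abs_pos.2 h2) ((dvd_abs _ _).2 h)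
    have h5 : (3 : ℤ) ≤ p := by exact_mod_cast h3
    linarith

theorem loc {a b : ℕ} {c p₀ q₀ : ℤ} (hab : IsCoprime (a : ℤ) b)
    (hodd : ¬ (Odd (a : ℤ) ∧ Odd (b : ℤ) ∧ Odd c)) (he : (a : ℤ) * p₀ - b * q₀ = c)
    (hcp : IsCoprime (b : ℤ) p₀) (hcq : IsCoprime (a : ℤ) q₀) {p : ℕ} (hp : p.Prime) :
    ∃ r : ℤ, ¬ (p : ℤ) ∣ b * r + p₀ ∧ ¬ (p : ℤ) ∣ a * r + q₀ := by
  have hpp := Nat.prime_iff_prime_int.1 hp
  have hunit : ∀ {x y : ℤ}, IsCoprime x y → (p : ℤ) ∣ x → (p : ℤ) ∣ y → False := fun hxy h1 h2 =>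
    hpp.not_unit (hxy.isUnit_of_dvd' h1 h2)
  by_cases hpb : (p : ℤ) ∣ b
  · have h1 : ∀ r : ℤ, ¬ (p : ℤ) ∣ b * r + p₀ := fun r h =>
      hunit hcp hpb ((dvd_add_right (hpb.mul_right r)).1 h)
    by_cases h2 : (p : ℤ) ∣ q₀
    · refine ⟨1, h1 1, fun h => ?_⟩
      rw [mul_one] at h
      exact hunit hab ((dvd_add_left h2).1 h) hpb
    · exact ⟨0, h1 0, by simpa using h2⟩
  by_cases hpa : (p : ℤ) ∣ a
  · have h1 : ∀ r : ℤ, ¬ (p : ℤ) ∣ a * r + q₀ := fun r h =>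
      hunit hcq hpa ((dvd_add_right (hpa.mul_right r)).1 h)
    by_cases h2 : (p : ℤ) ∣ p₀
    · refine ⟨1, fun h => ?_, h1 1⟩
      rw [mul_one] at h
      exact hpb ((dvd_add_left h2).1 h)
    · exact ⟨0, by simpa using h2, h1 0⟩
  rcases Nat.lt_or_ge p 3 with hp3 | hp3
  · have hp2 : p = 2 := by have := hp.two_le; omega
    subst hp2
    push_cast at hpa hpb ⊢
    have ha : Odd (a : ℤ) := Int.not_even_iff_odd.1 fun h => hpa h.two_dvd
    have hb : Odd (b : ℤ) := Int.not_even_iff_odd.1 fun h => hpb h.two_dvd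
    have hc : Even c := Int.not_odd_iff_even.1 fun h => hodd ⟨ha, hb, h⟩
    refine ⟨1 + p₀, ?_, ?_⟩
    · rw [← even_iff_two_dvd, Int.not_even_iff_odd]
      obtain ⟨x, hx⟩ := hb
      refine ⟨x * (1 + p₀) + p₀, ?_⟩
      rw [hx]; ring
    · rw [← even_iff_two_dvd, Int.not_even_iff_odd]
      obtain ⟨x, hx⟩ := hb
      obtain ⟨y, hy⟩ := ha
      obtain ⟨z, hz⟩ := hc
      rw [hx, hy, hz] at he
      refine ⟨y + y * p₀ + (z - y * p₀ + x * q₀) + q₀ , ?_⟩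
      rw [hy]
      linarith
  · by_contra hcon
    push Not at hcon
    have h0 := hcon 0
    have h1 := hcon 1
    have h2 := hcon 2
    have t : ∀ {x y : ℤ}, ¬ (p : ℤ) ∣ x → ∀ {i j : ℤ}, (p : ℤ) ∣ x * i + y → (p : ℤ) ∣ x * j + y → i ≠ j →
      |i - j| ≤ 2 → False := fun hx _ _ hi hj => two_of_three hp hp3 hx hi hj
    by_cases k0 : (p : ℤ) ∣ b * 0 + p₀
    · by_cases k1 : (p : ℤ) ∣ b * 1 + p₀
      · exact t hpb k0 k1 (by norm_num) (by norm_num)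
      · have m1 : (p : ℤ) ∣ a * 1 + q₀ := h1 k1
        by_cases k2 : (p : ℤ) ∣ b * 2 + p₀
        · exact t hpb k0 k2 (by norm_num) (by norm_num)
        · exact t hpa m1 (h2 k2) (by norm_num) (by norm_num)
    · have m0 : (p : ℤ) ∣ a * 0 + q₀ := h0 k0
      by_cases k1 : (p : ℤ) ∣ b * 1 + p₀
      · by_cases k2 : (p : ℤ) ∣ b * 2 + p₀
        · exact t hpb k1 k2 (by norm_num) (by norm_num)
        · exact t hpa m0 (h2 k2) (by norm_num) (by norm_num)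
      · exact t hpa m0 (h1 k1) (by norm_num) (by norm_num)

theorem F_loc {a b p : ℕ} {p₀ q₀ r : ℤ} (h1 : ¬ (p : ℤ) ∣ b * r + p₀) (h2 : ¬ (p : ℤ) ∣ a * r + q₀)
    {s : Bool} {v : ℕ} (hv : p ∣ v) :
    ¬ (p : ℤ) ∣ (F a b p₀ q₀ (s, v)).1 * r + (F a b p₀ q₀ (s, v)).2 := by
  have hv' : (p : ℤ) ∣ (v : ℤ) := by exact_mod_cast hv
  unfold F
  cases s
  · simp only [Bool.false_eq_true, if_false]
    intro h
    apply h2
    have e : (a : ℤ) * r + q₀ = (a * r + (q₀ + a * v)) - a * v := by ring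
    rw [e]
    exact dvd_sub h (hv'.mul_left _)
  · simp only [if_true]
    intro h
    apply h1
    have e : (b : ℤ) * r + p₀ = (b * r + (p₀ + b * v)) - b * v := by ring
    rw [e]
    exact dvd_sub h (hv'.mul_left _)

end Pool.Agent.Helper593_PS
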