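import Mathlib
import Pool.Agent.Helper593_PS.Ar

set_option autoImplicit false

/-!
Prime solutions of `a p - b q = c + a b (u - v)` against differences of primes: the counts.
-/

namespace Pool.Agent.Helper593_PS

open Finset Filter
open Pool.Agent.Y827.GS (Adf cntN cntN_anti)
open Pool.Agent.H35_SD (ec comb)

/-- the counting of the pairs of prime values of two forms -/
theorem cnt_pair {f g : ℤ × ℤ} {N n : ℕ} (hn : n ∈ (Icc 1 N).filter (fun n : ℕ => ∀ h ∈ ({f, g} :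
      Finset (ℤ × ℤ)), (h.1 * (n : ℤ) + h.2).toNat.Prime)) :
    1 ≤ n ∧ n ≤ N ∧ (f.1 * (n : ℤ) + f.2).toNat.Prime ∧ (g.1 * (n : ℤ) + g.2).toNat.Prime := by
  rw [mem_filter, mem_Icc] at hn
  exact ⟨hn.1.1, hn.1.2, hn.2 _ (mem_insert_self _ _), hn.2 _ (mem_insert_of_mem (mem_singleton_self _))⟩

theorem toNat_eq {z : ℤ} (h : z.toNat.Prime) : ((z.toNat : ℕ) : ℤ) = z := by
  have := h.pos
  omega

theorem diffs_finite (k m : ℕ) (c h : ℤ) (X : ℕ) :
    {p : ℕ | p.Prime ∧ p ≤ X ∧ (m : ℤ) ∣ k * p - c ∧ ∃ q : ℕ, q.Prime ∧ (q : ℤ) = p + h}.Finite :=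
  (Set.finite_Iic X).subset fun _ hp => hp.2.1

theorem sols_finite (a b : ℕ) (hb : 1 ≤ b) (c : ℤ) (X : ℕ) :
    {x : ℕ × ℕ | x.1.Prime ∧ x.2.Prime ∧ (a : ℤ) * x.1 - b * x.2 = c ∧ x.1 ≤ X}.Finite := by
  apply ((Set.finite_Iic X).prod (Set.finite_Iic ((a * X : ℤ) + |c|).toNat)).subset
  rintro ⟨p, q⟩ ⟨-, -, h3, h4⟩
  simp only at h3 h4
  refine ⟨h4, ?_⟩
  show q ≤ _
  have h5 : (a : ℤ) * p ≤ a * X := mul_le_mul_of_nonneg_left (by exact_mod_cast h4) (by positivity)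
  have h6 : (q : ℤ) ≤ b * q := by
    have : (1 : ℤ) ≤ b := by exact_mod_cast hb
    nlinarith [Int.natCast_nonneg q]
  have h7 := neg_abs_le c
  omega

/-- two values of the same form -/
theorem cnt_same {s k m N u v : ℕ} {r c : ℤ} (hs : 1 ≤ s) (hm : (m : ℤ) ∣ (s : ℤ)) (hc : (m : ℤ) ∣ k * r - c)
    (hr : 50 * |r| ≤ N) (hu : 10 * (s * u) ≤ N) :
    cntN {((s : ℤ), r + s * u), ((s : ℤ), r + s * v)} N ≤
      diffs k m c ((s : ℤ) * ((v : ℤ) - u)) (2 * s * N) := by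
  unfold cntN diffs
  rw [← Set.ncard_coe_finset]
  refine Set.ncard_le_ncard_of_injOn (fun n => ((s : ℤ) * n + (r + s * u)).toNat) ?_ ?_ (diffs_finite _ _ _ _ _)
  · intro n hn
    obtain ⟨hn1, hn2, h1, h2⟩ := cnt_pair (mem_coe.1 hn)
    simp only at h1 h2
    have e1 := toNat_eq h1
    have e2 := toNat_eq h2
    refine ⟨h1, ?_, ?_, _, h2, ?_⟩
    · have h3 : (s : ℤ) * n ≤ s * N := mul_le_mul_of_nonneg_left (by exact_mod_cast hn2) (by positivity)
      have h4 : 10 * ((s : ℤ) * u) ≤ N := by exact_mod_cast hu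
      have h5 := le_abs_self r
      have h6 : (N : ℤ) ≤ s * N := by
        have : (1 : ℤ) ≤ s := by exact_mod_cast hs
        nlinarith [Int.natCast_nonneg N]
      have h7 : (((s : ℤ) * n + (r + s * u)).toNat : ℤ) ≤ ((2 * s * N : ℕ) : ℤ) := by
        rw [e1]
        push_cast
        linarith
      exact_mod_cast h7
    · rw [e1]
      have e3 : (k : ℤ) * (s * n + (r + s * u)) - c = s * (k * (n + u)) + (k * r - c) := by ring
      rw [e3]
      exact dvd_add (hm.mul_right _) hc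
    · rw [e1, e2]; ring
  · intro n hn m' hm' h
    have h1 := toNat_eq (cnt_pair (mem_coe.1 hn)).2.2.1
    have h2 := toNat_eq (cnt_pair (mem_coe.1 hm')).2.2.1
    simp only at h h1 h2
    rw [← Nat.cast_inj (R := ℤ), h1, h2] at h
    have h3 : (s : ℤ) * n = s * m' := by linarith
    have h4 : (s : ℤ) ≠ 0 := by omega
    exact_mod_cast mul_left_cancel₀ h4 h3

/-- values of the two forms -/
theorem cnt_tf {a b N u v : ℕ} {p₀ q₀ c : ℤ} (hb : 1 ≤ b) (he : (a : ℤ) * p₀ - b * q₀ = c)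
    (hr : 50 * |p₀| ≤ N) (hu : 10 * (b * u) ≤ N) :
    cntN {((b : ℤ), p₀ + b * u), ((a : ℤ), q₀ + a * v)} N ≤
      sols a b (c + a * b * ((u : ℤ) - v)) (2 * b * N) := by
  unfold cntN sols
  rw [← Set.ncard_coe_finset]
  refine Set.ncard_le_ncard_of_injOn (fun n => (((b : ℤ) * n + (p₀ + b * u)).toNat,
    ((a : ℤ) * n + (q₀ + a * v)).toNat)) ?_ ?_ (sols_finite _ _ hb _ _)
  · intro n hn
    obtain ⟨hn1, hn2, h1, h2⟩ := cnt_pair (mem_coe.1 hn)
    simp only at h1 h2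
    have e1 := toNat_eq h1
    have e2 := toNat_eq h2
    refine ⟨h1, h2, ?_, ?_⟩
    · simp only
      rw [e1, e2, ← he]; ring
    · simp only
      have h3 : (b : ℤ) * n ≤ b * N := mul_le_mul_of_nonneg_left (by exact_mod_cast hn2) (by positivity)
      have h4 : 10 * ((b : ℤ) * u) ≤ N := by exact_mod_cast hu
      have h5 := le_abs_self p₀
      have h6 : (N : ℤ) ≤ b * N := by
        have : (1 : ℤ) ≤ b := by exact_mod_cast hb
        nlinarith [Int.natCast_nonneg N]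
      have h7 : (((b : ℤ) * n + (p₀ + b * u)).toNat : ℤ) ≤ ((2 * b * N : ℕ) : ℤ) := by
        rw [e1]
        push_cast
        linarith
      exact_mod_cast h7
  · intro n hn m' hm' h
    have h1 := toNat_eq (cnt_pair (mem_coe.1 hn)).2.2.1
    have h2 := toNat_eq (cnt_pair (mem_coe.1 hm')).2.2.1
    simp only [Prod.mk.injEq] at h h1 h2
    have h0 := h.1
    rw [← Nat.cast_inj (R := ℤ), h1, h2] at h0
    have h3 : (b : ℤ) * n = b * m' := by linarith
    have h4 : (b : ℤ) ≠ 0 := by omega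
    exact_mod_cast mul_left_cancel₀ h4 h3

open Classical in
/-- the proportion of the pairs `(u, v)` with `u = v` or for which `b (v - u)` or `a (v - u)` is often a
difference of primes in the classes given by the equation -/
noncomputable def dd (a b : ℕ) (c : ℤ) (C N : ℕ) (V : Finset ℕ) : ℝ :=
  (((V ×ˢ V).filter (fun x => x.1 = x.2 ∨
    (N : ℝ) / Real.log N ^ C ≤ (diffs a b c (b * ((x.2 : ℤ) - x.1)) (2 * b * N) : ℝ) ∨
    (N : ℝ) / Real.log N ^ C ≤ (diffs b a (-c) (a * ((x.2 : ℤ) - x.1)) (2 * a * N) : ℝ))).card : ℝ) /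
    (V.card : ℝ) ^ 2

open Classical in
/-- the proportion of the pairs `(u, v)` for which `a p - b q = c + a b (u - v)` has many prime solutions -/
noncomputable def gg (a b : ℕ) (c : ℤ) (C N : ℕ) (V : Finset ℕ) : ℝ :=
  (((V ×ˢ V).filter (fun x => c + a * b * ((x.1 : ℤ) - x.2) = 0 ∨
    (N : ℝ) / Real.log N ^ C ≤ (sols a b (c + a * b * ((x.1 : ℤ) - x.2)) (2 * b * N) : ℝ))).card : ℝ) /
    (V.card : ℝ) ^ 2

/-- `a p₀ - b q₀ = c` with small `p₀`, `q₀` -/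
theorem exists_start {a b : ℕ} {c : ℤ} (ha : 1 ≤ a) (hb : 1 ≤ b) (hab : IsCoprime (a : ℤ) b)
    (hac : IsCoprime (a : ℤ) c) (hbc : IsCoprime (b : ℤ) c) : ∃ p₀ q₀ : ℤ, (a : ℤ) * p₀ - b * q₀ = c ∧
      |p₀| ≤ b ∧ |q₀| ≤ a + |c| ∧ IsCoprime (b : ℤ) p₀ ∧ IsCoprime (a : ℤ) q₀ := by
  obtain ⟨x, y, hxy⟩ := hab
  have hb0 : (0 : ℤ) < b := by exact_mod_cast hb
  have ha0 : (0 : ℤ) < a := by exact_mod_cast ha
  obtain ⟨p₀, hp₀⟩ : ∃ p₀ : ℤ, p₀ = (x * c) % b := ⟨_, rfl⟩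
  have h1 : 0 ≤ p₀ := by rw [hp₀]; exact Int.emod_nonneg _ hb0.ne'
  have h2 : p₀ < b := by rw [hp₀]; exact Int.emod_lt_of_pos _ hb0
  have h3 : x * c = p₀ + b * ((x * c) / b) := by rw [hp₀]; exact (Int.emod_add_mul_ediv _ _).symm
  obtain ⟨q₀, hq₀⟩ : ∃ q₀ : ℤ, q₀ = -(y * c) - a * ((x * c) / b) := ⟨_, rfl⟩
  have he : (a : ℤ) * p₀ - b * q₀ = c := by
    rw [hq₀]
    have h4 : (a : ℤ) * p₀ = a * (x * c) - a * b * ((x * c) / b) := by rw [h3]; ring_nf; rw [← h3]; ring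
    have h5 : c = (x * a + y * b) * c := by rw [hxy, one_mul]
    linear_combination h4 - h5
  refine ⟨p₀, q₀, he, ?_, ?_, ?_, ?_⟩
  · rw [abs_of_nonneg h1]; exact h2.le
  · have h6 : (b : ℤ) * q₀ = a * p₀ - c := by linarith
    have h7 : (b : ℤ) * |q₀| ≤ b * (a + |c|) := by
      calc (b : ℤ) * |q₀| = |(b : ℤ) * q₀| := by rw [abs_mul, abs_of_pos hb0]
        _ = |a * p₀ - c| := by rw [h6]
        _ ≤ |(a : ℤ) * p₀| + |c| := abs_sub _ _
        _ = a * p₀ + |c| := by rw [abs_of_nonneg (by positivity)]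
        _ ≤ b * (a + |c|) := by nlinarith [abs_nonneg c]
    exact le_of_mul_le_mul_left h7 hb0
  · obtain ⟨s, t, hst⟩ := hbc
    exact ⟨s - t * q₀, t * a, by linear_combination hst + t * he⟩
  · obtain ⟨s, t, hst⟩ := hac
    exact ⟨s + t * p₀, -(t * b), by linear_combination hst + t * he⟩

end Pool.Agent.Helper593_PS
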