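import Mathlib
import Pool.Agent.Helper593_PS.Cnt

set_option autoImplicit false

/-!
Prime solutions of `a p - b q = c + a b (u - v)` against differences of primes: the theorem.
-/

namespace Pool.Agent.Helper593_PS

open Finset Filter
open Pool.Agent.Y827.GS (Adf cntN cntN_anti)
open Pool.Agent.H35_SD (ec comb)

theorem F_true {a b : ℕ} {p₀ q₀ : ℤ} {u : ℕ} : F a b p₀ q₀ (true, u) = ((b : ℤ), p₀ + b * u) := rfl

theorem F_false {a b : ℕ} {p₀ q₀ : ℤ} {u : ℕ} : F a b p₀ q₀ (false, u) = ((a : ℤ), q₀ + a * u) := rfl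

theorem main : ∃ W C : ℕ, 1 ≤ W ∧ ∀ ε : ℝ, 0 < ε → ∃ n₀ : ℕ, ∀ a b : ℕ, 1 ≤ a → 1 ≤ b →
    IsCoprime (a : ℤ) b → ∃ N₀ : ℕ, ∀ N : ℕ, N₀ ≤ N → ∀ c : ℤ, 100 * |c| ≤ N → IsCoprime (a : ℤ) c →
    IsCoprime (b : ℤ) c → ¬ (Odd (a : ℤ) ∧ Odd (b : ℤ) ∧ Odd c) → ∀ V : Finset ℕ, n₀ ≤ V.card →
    (∀ v ∈ V, W ∣ v ∧ 10 * (a * b * v) ≤ N) →
    1 - ε ≤ Real.sqrt (dd a b c C N V) + Real.sqrt (gg a b c C N V) ∧
      2 / 3 - ε ≤ dd a b c C N V + gg a b c C N V := by
  classical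
  obtain ⟨K, hK1, hK⟩ := Pool.Agent.Y827.RO.lamRD 4
  have hK := hK (by norm_num)
  set C : ℕ := 4 * K + 2 with hC
  refine ⟨(4 * K).factorial, C, Nat.factorial_pos _, fun ε hε => ?_⟩
  obtain ⟨n₀, hn₀⟩ := comb K ε hε
  refine ⟨n₀, fun a b ha hb hab => ?_⟩
  obtain ⟨N₁, hN₁⟩ := eventually_atTop.1 (hK (max a b))
  refine ⟨max N₁ (100 * (a + b)), fun N hN c hcN hac hbc hodd V hV hVW => ?_⟩
  have hKN := hN₁ N ((le_max_left _ _).trans hN)
  have hNab : 100 * (a + b) ≤ N := (le_max_right _ _).trans hN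
  have hN1 : 1 ≤ N := by omega
  obtain ⟨p₀, q₀, he, hp0, hq0, hcp, hcq⟩ := exists_start (c := c) ha hb hab hac hbc
  have hp50 : 50 * |p₀| ≤ N := by
    have : 100 * ((a : ℤ) + b) ≤ N := by exact_mod_cast hNab
    have ha0 : (0 : ℤ) ≤ a := by positivity
    have hb0 : (0 : ℤ) ≤ b := by positivity
    linarith
  have hq50 : 50 * |q₀| ≤ N := by
    have : 100 * ((a : ℤ) + b) ≤ N := by exact_mod_cast hNab
    have ha0 : (0 : ℤ) ≤ a := by positivity
    have hb0 : (0 : ℤ) ≤ b := by positivity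
    linarith
  have hu1 : ∀ v ∈ V, 10 * (a * v) ≤ N := by
    intro v hv
    have : a * v ≤ a * b * v := Nat.mul_le_mul_right v (Nat.le_mul_of_pos_right a (by omega))
    have := (hVW v hv).2
    omega
  have hu2 : ∀ v ∈ V, 10 * (b * v) ≤ N := by
    intro v hv
    have : b * v ≤ a * b * v := Nat.mul_le_mul_right v (Nat.le_mul_of_pos_left b (by omega))
    have := (hVW v hv).2
    omega
  set R : ℤ × ℤ → ℤ × ℤ → Prop := fun f g => (N : ℝ) / Real.log N ^ C ≤ (cntN {f, g} N : ℝ) with hR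
  set Nr : Bool × ℕ → Bool × ℕ → Prop := fun p q => F a b p₀ q₀ p ≠ F a b p₀ q₀ q ∧
    ¬ R (F a b p₀ q₀ p) (F a b p₀ q₀ q) with hNr
  have hsym : ∀ p q, Nr p q → Nr q p := by
    rintro p q ⟨h1, h2⟩
    refine ⟨fun h => h1 h.symm, ?_⟩
    rw [hR] at h2 ⊢
    simp only at h2 ⊢
    rw [Finset.pair_comm]
    exact h2
  have hbox : ∀ (s : Fin 4 → Bool) (A : Fin 4 → Fin K → ℕ), (∀ g i, A g i ∈ V) →
      (∀ g, Function.Injective (A g)) → ¬ ∀ g g', g ≠ g' → ∀ i i', Nr (s g, A g i) (s g', A g' i') := by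
    intro s A hAV hAinj hcon
    obtain ⟨S, cc, hS, hcnt⟩ := hKN (fun g i => F a b p₀ q₀ (s g, A g i)) (by
      rintro ⟨g, i⟩ ⟨g', i'⟩ h
      simp only at h
      by_cases hgg : g = g'
      · subst hgg
        rw [hAinj g (F_inj ha hb h)]
      · exact absurd h (hcon g g' hgg i i').1)
      (fun g i => F_adf ha hb hp50 hq50 hcp hcq hN1 (hVW _ (hAV g i)).2) (by
      intro p hp hpK
      obtain ⟨r, h1, h2⟩ := loc hab hodd he hcp hcq hp
      exact ⟨r, fun g i => F_loc h1 h2 (((Nat.Prime.dvd_factorial hp).2 hpK).trans (hVW _ (hAV g i)).1)⟩)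
    have hS2 : 1 < S.card := by
      by_contra h
      have h1 : (S.card : ℝ) ≤ 1 := by exact_mod_cast (not_lt.1 h)
      push_cast at hS
      linarith
    obtain ⟨g, hg, g', hg', hgg⟩ := one_lt_card.1 hS2
    apply (hcon g g' hgg (cc g) (cc g')).2
    rw [hR]
    refine hcnt.trans ?_
    have h1 : ({F a b p₀ q₀ (s g, A g (cc g)), F a b p₀ q₀ (s g', A g' (cc g'))} : Finset (ℤ × ℤ)) ⊆
        S.image (fun g => F a b p₀ q₀ (s g, A g (cc g))) := by
      intro f hf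
      rw [mem_insert, mem_singleton] at hf
      rcases hf with rfl | rfl
      · exact mem_image.2 ⟨g, hg, rfl⟩
      · exact mem_image.2 ⟨g', hg', rfl⟩
    exact_mod_cast cntN_anti h1 N
  obtain ⟨h1, h2⟩ := hn₀ ℕ V Nr hV hsym hbox
  have hd : (ec V (fun u v => ¬ (Nr (true, u) (true, v) ∧ Nr (false, u) (false, v))) : ℝ) / (V.card : ℝ) ^ 2 ≤
      dd a b c C N V := by
    unfold dd ec
    apply div_le_div_of_nonneg_right _ (by positivity)
    apply Nat.cast_le.2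
    apply card_le_card
    intro x hx
    simp only [mem_filter] at hx ⊢
    refine ⟨hx.1, ?_⟩
    obtain ⟨hx1, hx2⟩ := mem_product.1 hx.1
    by_cases hne : x.1 = x.2
    · exact Or.inl hne
    right
    by_cases h3 : R (F a b p₀ q₀ (true, x.1)) (F a b p₀ q₀ (true, x.2))
    · left
      rw [hR] at h3
      simp only [F_true] at h3
      refine h3.trans (Nat.cast_le.2 (cnt_same hb (dvd_refl _) ?_ hp50 (hu2 _ hx1)))
      exact ⟨q₀, by linarith⟩
    · by_cases h4 : R (F a b p₀ q₀ (false, x.1)) (F a b p₀ q₀ (false, x.2))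
      · right
        rw [hR] at h4
        simp only [F_false] at h4
        refine h4.trans (Nat.cast_le.2 (cnt_same ha (dvd_refl _) ?_ hq50 (hu1 _ hx1)))
        exact ⟨p₀, by linarith⟩
      · exact absurd ⟨⟨fun h => hne (F_inj ha hb h), h3⟩, ⟨fun h => hne (F_inj ha hb h), h4⟩⟩ hx.2
  have hg : (ec V (fun u v => ¬ Nr (true, u) (false, v)) : ℝ) / (V.card : ℝ) ^ 2 ≤ gg a b c C N V := by
    unfold gg ec
    apply div_le_div_of_nonneg_right _ (by positivity)
    apply Nat.cast_le.2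
    apply card_le_card
    intro x hx
    simp only [mem_filter] at hx ⊢
    refine ⟨hx.1, ?_⟩
    obtain ⟨hx1, hx2⟩ := mem_product.1 hx.1
    by_cases h3 : R (F a b p₀ q₀ (true, x.1)) (F a b p₀ q₀ (false, x.2))
    · right
      rw [hR] at h3
      simp only [F_true, F_false] at h3
      exact h3.trans (Nat.cast_le.2 (cnt_tf hb he hp50 (hu2 _ hx1)))
    · left
      by_contra hne
      refine hx.2 ⟨fun h => hne ?_, h3⟩
      simp only [F_true, F_false, Prod.mk.injEq] at h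
      obtain ⟨h5, h6⟩ := h
      have h7 : (a : ℤ) = 1 := by
        rw [h5, isCoprime_self] at hab
        rcases Int.isUnit_iff.1 hab with h8 | h8
        · exact h8
        · have : (0 : ℤ) ≤ a := by positivity
          omega
      rw [h5, h7] at h6
      rw [h5, h7] at he
      rw [h5, h7]
      linarith
  exact ⟨h1.trans (add_le_add (Real.sqrt_le_sqrt hd) (Real.sqrt_le_sqrt hg)), h2.trans (add_le_add hd hg)⟩

end Pool.Agent.Helper593_PS
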