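import Mathlib
import Pool.Agent.Helper593_PS.Main

set_option autoImplicit false

/-!
Prime solutions of `a p - b q = c + a b (u - v)` against differences of primes: infinitely many solutions.
-/

namespace Pool.Agent.Helper593_PS

open Finset Filter

/-- `a p - b q = c` has infinitely many prime solutions -/
def SolInf (a b : ℕ) (c : ℤ) : Prop :=
  {x : ℕ × ℕ | x.1.Prime ∧ x.2.Prime ∧ (a : ℤ) * x.1 - b * x.2 = c}.Infinite

/-- there are infinitely many primes `p` with `k p ≡ c (mod m)` for which `p + h` is prime -/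
def DiffInf (k m : ℕ) (c h : ℤ) : Prop :=
  {p : ℕ | p.Prime ∧ (m : ℤ) ∣ k * p - c ∧ ∃ q : ℕ, q.Prime ∧ (q : ℤ) = p + h}.Infinite

theorem ev_gt (C : ℕ) (B : ℝ) : ∀ᶠ N : ℕ in atTop, B < (N : ℝ) / Real.log N ^ C := by
  have h1 := (Real.tendsto_pow_log_div_mul_add_atTop 1 0 C one_ne_zero).comp tendsto_natCast_atTop_atTop
  have h2 := h1.eventually (gt_mem_nhds (show (0 : ℝ) < 1 / (|B| + 1) by positivity))
  filter_upwards [h2, eventually_ge_atTop 3] with N hN hN3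
  simp only [Function.comp, one_mul, add_zero] at hN
  have hN0 : (0 : ℝ) < N := by exact_mod_cast (by omega : 0 < N)
  have hl : 0 < Real.log N := Real.log_pos (by exact_mod_cast (by omega : 1 < N))
  have hl2 : 0 < Real.log (N : ℝ) ^ C := by positivity
  rw [div_lt_div_iff₀ hN0 (by positivity)] at hN
  rw [lt_div_iff₀ hl2]
  have h3 := le_abs_self B
  nlinarith

theorem ev_sol (a b : ℕ) (c : ℤ) (C : ℕ) : ∀ᶠ N : ℕ in atTop,
    (N : ℝ) / Real.log N ^ C ≤ (sols a b c (2 * b * N) : ℝ) → SolInf a b c := by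
  by_cases h : SolInf a b c
  · exact Eventually.of_forall fun _ _ => h
  have hfin := Set.not_infinite.1 h
  filter_upwards [ev_gt C ({x : ℕ × ℕ | x.1.Prime ∧ x.2.Prime ∧ (a : ℤ) * x.1 - b * x.2 = c}.ncard)] with N hN h2
  exfalso
  have h3 : sols a b c (2 * b * N) ≤ {x : ℕ × ℕ | x.1.Prime ∧ x.2.Prime ∧ (a : ℤ) * x.1 - b * x.2 = c}.ncard :=
    Set.ncard_le_ncard (fun x hx => ⟨hx.1, hx.2.1, hx.2.2.1⟩) hfin
  have h4 : (sols a b c (2 * b * N) : ℝ) ≤ _ := Nat.cast_le.2 h3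
  linarith

theorem ev_diff (k m : ℕ) (c h : ℤ) (C s : ℕ) : ∀ᶠ N : ℕ in atTop,
    (N : ℝ) / Real.log N ^ C ≤ (diffs k m c h (2 * s * N) : ℝ) → DiffInf k m c h := by
  by_cases h' : DiffInf k m c h
  · exact Eventually.of_forall fun _ _ => h'
  have hfin := Set.not_infinite.1 h'
  filter_upwards [ev_gt C ({p : ℕ | p.Prime ∧ (m : ℤ) ∣ k * p - c ∧ ∃ q : ℕ, q.Prime ∧
    (q : ℤ) = p + h}.ncard)] with N hN h2
  exfalso
  have h3 : diffs k m c h (2 * s * N) ≤ {p : ℕ | p.Prime ∧ (m : ℤ) ∣ k * p - c ∧ ∃ q : ℕ, q.Prime ∧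
      (q : ℤ) = p + h}.ncard :=
    Set.ncard_le_ncard (fun x hx => ⟨hx.1, hx.2.2.1, hx.2.2.2⟩) hfin
  have h4 : (diffs k m c h (2 * s * N) : ℝ) ≤ _ := Nat.cast_le.2 h3
  linarith

theorem sol_zero {a b : ℕ} {c w : ℤ} (hac : IsCoprime (a : ℤ) c) (hbc : IsCoprime (b : ℤ) c)
    (h : c + a * b * w = 0) : SolInf a b (c + a * b * w) := by
  have ha : (a : ℤ) ∣ c := ⟨-(b * w), by linear_combination h⟩
  have hb : (b : ℤ) ∣ c := ⟨-(a * w), by linear_combination h⟩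
  have ha1 : a = 1 := by
    have h1 : IsUnit (a : ℤ) := hac.isUnit_of_dvd' (dvd_refl _) ha
    have := Int.isUnit_iff.1 h1
    omega
  have hb1 : b = 1 := by
    have h1 : IsUnit (b : ℤ) := hbc.isUnit_of_dvd' (dvd_refl _) hb
    have := Int.isUnit_iff.1 h1
    omega
  rw [h, ha1, hb1]
  unfold SolInf
  refine Set.infinite_of_injective_forall_mem (f := fun n : ℕ => (Nat.nth Nat.Prime n, Nat.nth Nat.Prime n)) ?_ ?_
  · intro m n hmn
    simp only [Prod.mk.injEq, and_self] at hmn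
    exact Nat.nth_injective Nat.infinite_setOf_prime hmn
  · intro n
    exact ⟨Nat.prime_nth_prime n, Nat.prime_nth_prime n, by simp⟩

open Classical in
/-- the proportion of the differences, infinitely often -/
noncomputable def ddI (a b : ℕ) (c : ℤ) (V : Finset ℕ) : ℝ :=
  (((V ×ˢ V).filter (fun x => x.1 = x.2 ∨ DiffInf a b c (b * ((x.2 : ℤ) - x.1)) ∨
    DiffInf b a (-c) (a * ((x.2 : ℤ) - x.1)))).card : ℝ) / (V.card : ℝ) ^ 2

open Classical in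
/-- the proportion of the solvable equations, infinitely often -/
noncomputable def ggI (a b : ℕ) (c : ℤ) (V : Finset ℕ) : ℝ :=
  (((V ×ˢ V).filter (fun x => SolInf a b (c + a * b * ((x.1 : ℤ) - x.2)))).card : ℝ) / (V.card : ℝ) ^ 2

theorem main2 : ∃ W C : ℕ, 1 ≤ W ∧ ∀ ε : ℝ, 0 < ε → ∃ n₀ : ℕ, ∀ a b : ℕ, 1 ≤ a → 1 ≤ b →
    IsCoprime (a : ℤ) b →
    (∃ N₀ : ℕ, ∀ N : ℕ, N₀ ≤ N → ∀ c : ℤ, 100 * |c| ≤ N → IsCoprime (a : ℤ) c →
      IsCoprime (b : ℤ) c → ¬ (Odd (a : ℤ) ∧ Odd (b : ℤ) ∧ Odd c) → ∀ V : Finset ℕ, n₀ ≤ V.card →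
      (∀ v ∈ V, W ∣ v ∧ 10 * (a * b * v) ≤ N) →
      1 - ε ≤ Real.sqrt (dd a b c C N V) + Real.sqrt (gg a b c C N V) ∧
        2 / 3 - ε ≤ dd a b c C N V + gg a b c C N V) ∧
    ∀ c : ℤ, IsCoprime (a : ℤ) c → IsCoprime (b : ℤ) c → ¬ (Odd (a : ℤ) ∧ Odd (b : ℤ) ∧ Odd c) →
      ∀ V : Finset ℕ, n₀ ≤ V.card → (∀ v ∈ V, W ∣ v) →
      1 - ε ≤ Real.sqrt (ddI a b c V) + Real.sqrt (ggI a b c V) ∧ 2 / 3 - ε ≤ ddI a b c V + ggI a b c V := by
  classical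
  obtain ⟨W, C, hW, h⟩ := main
  refine ⟨W, C, hW, fun ε hε => ?_⟩
  obtain ⟨n₀, hn₀⟩ := h ε hε
  refine ⟨n₀, fun a b ha hb hab => ⟨hn₀ a b ha hb hab, fun c hac hbc hodd V hV hVW => ?_⟩⟩
  obtain ⟨N₀, hN₀⟩ := hn₀ a b ha hb hab
  have e1 : ∀ᶠ N : ℕ in atTop, ∀ x ∈ V ×ˢ V, (N : ℝ) / Real.log N ^ C ≤
      (sols a b (c + a * b * ((x.1 : ℤ) - x.2)) (2 * b * N) : ℝ) → SolInf a b (c + a * b * ((x.1 : ℤ) - x.2)) :=
    (Filter.eventually_all_finset _).2 fun x _ => ev_sol a b _ C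
  have e2 : ∀ᶠ N : ℕ in atTop, ∀ x ∈ V ×ˢ V, (N : ℝ) / Real.log N ^ C ≤
      (diffs a b c (b * ((x.2 : ℤ) - x.1)) (2 * b * N) : ℝ) → DiffInf a b c (b * ((x.2 : ℤ) - x.1)) :=
    (Filter.eventually_all_finset _).2 fun x _ => ev_diff a b c _ C b
  have e3 : ∀ᶠ N : ℕ in atTop, ∀ x ∈ V ×ˢ V, (N : ℝ) / Real.log N ^ C ≤
      (diffs b a (-c) (a * ((x.2 : ℤ) - x.1)) (2 * a * N) : ℝ) → DiffInf b a (-c) (a * ((x.2 : ℤ) - x.1)) :=
    (Filter.eventually_all_finset _).2 fun x _ => ev_diff b a (-c) _ C a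
  have e4 : ∀ᶠ N : ℕ in atTop, ∀ v ∈ V, 10 * (a * b * v) ≤ N :=
    (Filter.eventually_all_finset _).2 fun v _ => eventually_ge_atTop _
  have e5 : ∀ᶠ N : ℕ in atTop, 100 * |c| ≤ (N : ℤ) := by
    filter_upwards [eventually_ge_atTop (100 * |c|).toNat] with N hN
    omega
  obtain ⟨N, h1, h2, h3, h4, h5, h6⟩ := (e1.and (e2.and (e3.and (e4.and (e5.and
    (eventually_ge_atTop N₀)))))).exists
  obtain ⟨r1, r2⟩ := hN₀ N h6 c h5 hac hbc hodd V hV (fun v hv => ⟨hVW v hv, h4 v hv⟩)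
  have hd : dd a b c C N V ≤ ddI a b c V := by
    unfold dd ddI
    apply div_le_div_of_nonneg_right _ (by positivity)
    apply Nat.cast_le.2
    apply card_le_card
    intro x hx
    simp only [mem_filter] at hx ⊢
    refine ⟨hx.1, ?_⟩
    rcases hx.2 with h | h | h
    · exact Or.inl h
    · exact Or.inr (Or.inl (h2 x hx.1 h))
    · exact Or.inr (Or.inr (h3 x hx.1 h))
  have hg : gg a b c C N V ≤ ggI a b c V := by
    unfold gg ggI
    apply div_le_div_of_nonneg_right _ (by positivity)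
    apply Nat.cast_le.2
    apply card_le_card
    intro x hx
    simp only [mem_filter] at hx ⊢
    refine ⟨hx.1, ?_⟩
    rcases hx.2 with h | h
    · exact sol_zero hac hbc h
    · exact h1 x hx.1 h
  exact ⟨r1.trans (add_le_add (Real.sqrt_le_sqrt hd) (Real.sqrt_le_sqrt hg)), r2.trans (add_le_add hd hg)⟩

end Pool.Agent.Helper593_PS
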